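import Mathlib

set_option autoImplicit false

namespace Pool.Agent.Results.MP_b2ceab_nt.Dependent

theorem growth (u k : ℕ) (hu : 4 ≤ u) : (u + 1) * (k + 3) < u ^ (k + 3) := by
  induction k with
  | zero =>
    have : u ^ (0 + 3) = u * u * u := by ring
    rw [this]; nlinarith [Nat.mul_le_mul hu hu]
  | succ k ih =>
    have : u ^ (k + 1 + 3) = u ^ (k + 3) * u := by ring
    have h4 : u ^ (k + 3) * 4 ≤ u ^ (k + 3) * u := Nat.mul_le_mul_left _ hu
    have h5 : (u + 1) * (k + 1 + 3) = (u + 1) * (k + 3) + (u + 1) := by ring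
    have h6 : u + 1 ≤ (u + 1) * (k + 3) := Nat.le_mul_of_pos_right _ (by omega)
    rw [this]; omega

theorem dvd_iff (p u : ℕ) (hu : 1 ≤ u) : p ∣ u - 1 ↔ (u : ZMod p) = 1 := by
  rw [← ZMod.natCast_eq_zero_iff, Nat.cast_sub hu, sub_eq_zero]; simp

theorem dvd_add_iff (p u : ℕ) : p ∣ u + 1 ↔ (u : ZMod p) = -1 := by
  rw [← ZMod.natCast_eq_zero_iff, Nat.cast_add, Nat.cast_one, add_eq_zero_iff_eq_neg]

theorem key (t a b : ℕ) (ht : 2 ≤ t) (hab : a.Coprime b)
    (h1 : ∀ p : ℕ, p.Prime → p ∣ (t ^ b) ^ 2 - 1 → p ∣ (t ^ a) ^ 2 - 1)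
    (h2 : ∀ p : ℕ, p.Prime → p ∣ (t ^ b) ^ 4 - 1 → p ∣ (t ^ a) ^ 4 - 1) : b = 1 := by
  have ht0 : 0 < t := by omega
  set u := t ^ 2 with hu
  have hu4 : 4 ≤ u := by rw [hu]; nlinarith
  have hmod : u % 4 = 0 ∨ u % 4 = 1 := by
    rw [hu, Nat.pow_mod]
    have : t % 4 < 4 := Nat.mod_lt _ (by norm_num)
    interval_cases t % 4 <;> simp
  have e1 : ∀ c, (t ^ c) ^ 2 = u ^ c := fun c => by rw [hu, ← pow_mul, ← pow_mul, mul_comm]
  have e2 : ∀ c, (t ^ c) ^ 4 = (u ^ 2) ^ c := fun c => by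
    rw [hu, ← pow_mul, ← pow_mul, ← pow_mul]; congr 1; ring
  have hpos : ∀ c, 1 ≤ u ^ c := fun c => Nat.one_le_pow _ _ (by omega)
  have hpos2 : ∀ c, 1 ≤ (u ^ 2) ^ c := fun c => Nat.one_le_pow _ _ (by positivity)
  simp only [e1, e2] at h1 h2
  rcases Nat.even_or_odd b with hb | hb
  · exfalso
    have ha : Odd a := by
      by_contra hne
      rw [Nat.not_odd_iff_even] at hne
      have := Nat.dvd_gcd (even_iff_two_dvd.1 hne) (even_iff_two_dvd.1 hb)
      rw [hab] at this; omega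
    have hex : ∃ p : ℕ, p.Prime ∧ p ∣ u + 1 ∧ p ≠ 2 := by
      rcases hmod with h | h
      · obtain ⟨p, hp, hd⟩ := Nat.exists_prime_and_dvd (n := u + 1) (by omega)
        refine ⟨p, hp, hd, ?_⟩
        rintro rfl; omega
      · obtain ⟨p, hp, hd⟩ := Nat.exists_prime_and_dvd (n := (u + 1) / 2) (by omega)
        refine ⟨p, hp, hd.trans (Nat.div_dvd_of_dvd (by omega)), ?_⟩
        rintro rfl; omega
    obtain ⟨p, hp, hd, hp2⟩ := hex
    have hz := (dvd_add_iff p u).1 hd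
    have h3 : p ∣ u ^ b - 1 := by
      rw [dvd_iff _ _ (hpos b)]; push_cast; rw [hz, hb.neg_one_pow]
    have h4 := (dvd_iff _ _ (hpos a)).1 (h1 p hp h3)
    push_cast at h4
    rw [hz, ha.neg_one_pow] at h4
    have h5 : ((2 : ℕ) : ZMod p) = 0 := by
      push_cast; linear_combination -h4
    rw [ZMod.natCast_eq_zero_iff] at h5
    exact hp2 ((Nat.prime_dvd_prime_iff_eq hp Nat.prime_two).1 h5)
  · by_contra hb1
    obtain ⟨k, rfl⟩ : ∃ k, b = k + 3 := by
      rcases hb with ⟨s, hs⟩; exact ⟨b - 3, by omega⟩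
    have hsupp : ∀ p : ℕ, p.Prime → p ∣ u ^ (k + 3) + 1 → p ∣ u + 1 := by
      intro p hp hd
      have hz := (dvd_add_iff p _).1 hd
      push_cast at hz
      have h3 : ((u : ZMod p) ^ 2) ^ (k + 3) = 1 := by
        rw [← pow_mul, mul_comm, pow_mul, hz]; ring
      have h4 : p ∣ (u ^ 2) ^ (k + 3) - 1 := by
        rw [dvd_iff _ _ (hpos2 _)]; push_cast; exact h3
      have h5 := (dvd_iff _ _ (hpos2 a)).1 (h2 p hp h4)
      push_cast at h5
      have h6 : ((u : ZMod p) ^ 2) ^ (Nat.gcd a (k + 3)) = 1 := pow_gcd_eq_one.2 ⟨h5, h3⟩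
      rw [hab, pow_one] at h6
      rw [dvd_add_iff]
      obtain ⟨s, hs⟩ := hb
      rw [hs, pow_succ, pow_mul, h6, one_pow, one_mul] at hz
      exact hz
    have hdvd : u ^ (k + 3) + 1 ∣ (u + 1) * (k + 3) := by
      rw [Nat.dvd_iff_prime_pow_dvd_dvd]
      intro p e hp hd
      rcases Nat.eq_zero_or_pos e with rfl | he
      · simp
      have hpd : p ∣ u + 1 := hsupp p hp ((dvd_pow_self p he.ne').trans hd)
      by_cases hp2 : p = 2
      · subst hp2
        have he1 : e = 1 := by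
          by_contra hne
          have h4 : 2 ^ 2 ∣ u ^ (k + 3) + 1 := (pow_dvd_pow 2 (by omega)).trans hd
          have h5 : u % 4 = 1 := by omega
          have h6 : u ^ (k + 3) % 4 = 1 := by rw [Nat.pow_mod, h5]; simp
          omega
        subst he1
        exact Dvd.dvd.mul_right (by simpa using hpd) _
      · haveI := Fact.mk hp
        have hnd : ¬ p ∣ u := fun h => hp.one_lt.ne' (Nat.dvd_one.1 ((Nat.dvd_add_right h).1 hpd))
        have hl := padicValNat.pow_add_pow (p := p) (x := u) (y := 1) (hp.odd_of_ne_two hp2) hpd hnd hb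
        rw [one_pow] at hl
        rw [padicValNat_dvd_iff_le (by positivity)] at hd ⊢
        rw [padicValNat.mul (by positivity) (by positivity), ← hl]
        exact hd
    have := Nat.le_of_dvd (by positivity) hdvd
    have := growth u k hu4
    omega

theorem common (x y i j : ℕ) (hi : 0 < i) (hj : 0 < j) (h : x ^ i = y ^ j) :
    ∃ t a b : ℕ, a.Coprime b ∧ x = t ^ a ∧ y = t ^ b := by
  obtain ⟨g, i', j', hg, hc, rfl, rfl⟩ := Nat.exists_coprime' (Nat.gcd_pos_of_pos_left j hi)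
  have h1 : x ^ i' = y ^ j' := by
    rw [pow_mul, pow_mul] at h
    exact Nat.pow_left_injective hg.ne' h
  have h2 : (x : ℚ) ^ i' = (y : ℚ) ^ j' := by exact_mod_cast h1
  obtain ⟨c, hx, hy⟩ := (pow_eq_pow_iff_of_coprime hc).1 h2
  have hj' : j' ≠ 0 := by rintro rfl; simp at hj
  have hden : c.den = 1 := by
    have := congrArg Rat.den hx
    rw [Rat.den_pow, Rat.den_natCast] at this
    exact (Nat.pow_eq_one.1 this.symm).resolve_right hj'
  have hc' : c = (c.num : ℚ) := (Rat.coe_int_num_of_den_eq_one hden).symm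
  refine ⟨c.num.natAbs, j', i', hc.symm, ?_, ?_⟩
  · rw [hc'] at hx
    have : (x : ℤ) = c.num ^ j' := by exact_mod_cast hx
    simpa [Int.natAbs_pow] using congrArg Int.natAbs this
  · rw [hc'] at hy
    have : (y : ℤ) = c.num ^ i' := by exact_mod_cast hy
    simpa [Int.natAbs_pow] using congrArg Int.natAbs this

/-- If `x, y` are multiplicatively dependent positive integers and `x^(2^n) - 1`, `y^(2^n) - 1`
have the same prime divisors for `n = 1` and `n = 2`, then `x = y`. -/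
theorem result : ∀ x y : ℕ, 0 < x → 0 < y → (∃ i j : ℕ, 0 < i ∧ 0 < j ∧ x ^ i = y ^ j) →
    (∀ n : ℕ, (n = 1 ∨ n = 2) → ∀ p : ℕ, p.Prime →
      ((p : ℤ) ∣ (x : ℤ) ^ (2 ^ n) - 1 ↔ (p : ℤ) ∣ (y : ℤ) ^ (2 ^ n) - 1)) → x = y := by
  rintro x y hx hy ⟨i, j, hi, hj, h⟩ H
  have cast : ∀ z m p : ℕ, 0 < z → ((p : ℤ) ∣ (z : ℤ) ^ m - 1 ↔ p ∣ z ^ m - 1) := by
    intro z m p hz
    rw [← Int.natCast_dvd_natCast, Nat.cast_sub (Nat.one_le_pow _ _ hz)]; simp
  have H1 : ∀ p : ℕ, p.Prime → (p ∣ x ^ 2 - 1 ↔ p ∣ y ^ 2 - 1) := fun p hp => by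
    rw [← cast x 2 p hx, ← cast y 2 p hy]; simpa using H 1 (Or.inl rfl) p hp
  have H2 : ∀ p : ℕ, p.Prime → (p ∣ x ^ 4 - 1 ↔ p ∣ y ^ 4 - 1) := fun p hp => by
    rw [← cast x 4 p hx, ← cast y 4 p hy]; simpa using H 2 (Or.inr rfl) p hp
  obtain ⟨t, a, b, hab, rfl, rfl⟩ := common x y i j hi hj h
  by_cases ht : 2 ≤ t
  · have hb := key t a b ht hab (fun p hp => (H1 p hp).2) (fun p hp => (H2 p hp).2)
    have ha := key t b a ht hab.symm (fun p hp => (H1 p hp).1) (fun p hp => (H2 p hp).1)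
    rw [ha, hb]
  · have : t = 0 ∨ t = 1 := by omega
    rcases this with rfl | rfl
    · have h1 : 0 ^ a ≤ 1 := by cases a <;> simp
      have h2 : 0 ^ b ≤ 1 := by cases b <;> simp
      omega
    · simp

end Pool.Agent.Results.MP_b2ceab_nt.Dependent
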